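import Mathlib

/-!
# Squares in `ℚ_p`
-/

set_option autoImplicit false

namespace Pool.Agent.J4.H59.WG

/-- Hensel: an integer prime to `p` which is a square modulo `p`, `8` if `p = 2`, is a square. -/
theorem sq_padic {p : ℕ} [hp : Fact p.Prime] {s c M : ℕ} (h : (s : ZMod M) = (c : ZMod M) ^ 2)
    (hpM : p ∣ M) (h8 : 8 ∣ M) (hs : ¬ p ∣ s) : IsSquare ((s : ℕ) : ℚ_[p]) := by
  -- a power of `p` larger than `4`
  have hc : ¬ p ∣ c := by
    intro hd
    apply hs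
    have h1 : ((s : ℤ) : ZMod M) = ((c ^ 2 : ℤ) : ZMod M) := by push_cast; exact h
    have h2 : (M : ℤ) ∣ c ^ 2 - s := (ZMod.intCast_eq_intCast_iff_dvd_sub _ _ _).1 h1
    have h3 : (p : ℤ) ∣ c ^ 2 - s := (Int.natCast_dvd_natCast.2 hpM).trans h2
    have h4 : (p : ℤ) ∣ c ^ 2 := (Int.natCast_dvd_natCast.2 hd).trans (dvd_pow_self _ two_ne_zero)
    have h5 : (p : ℤ) ∣ s := by
      have := dvd_sub h4 h3
      simpa using this
    exact Int.natCast_dvd_natCast.1 h5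
  have h1 : ((s : ℤ) : ZMod M) = ((c ^ 2 : ℤ) : ZMod M) := by push_cast; exact h
  have h2 : (M : ℤ) ∣ c ^ 2 - s := (ZMod.intCast_eq_intCast_iff_dvd_sub _ _ _).1 h1
  let F : Polynomial ℤ_[p] := Polynomial.X ^ 2 - Polynomial.C (s : ℤ_[p])
  have e1 : F.eval (c : ℤ_[p]) = (((c : ℤ) ^ 2 - s : ℤ) : ℤ_[p]) := by
    simp [F]
  have e2 : F.derivative.eval (c : ℤ_[p]) = 2 * (c : ℤ_[p]) := by
    simp [F]
    left
    norm_num
  have hcn : ‖(c : ℤ_[p])‖ = 1 := by
    have h3 : ‖((c : ℤ) : ℤ_[p])‖ = 1 := by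
      rcases lt_or_eq_of_le (PadicInt.norm_le_one ((c : ℤ) : ℤ_[p])) with h4 | h4
      · rw [PadicInt.norm_int_lt_one_iff_dvd] at h4
        exact absurd (Int.natCast_dvd_natCast.1 h4) hc
      · exact h4
    simpa using h3
  have key : ‖F.eval (c : ℤ_[p])‖ < ‖F.derivative.eval (c : ℤ_[p])‖ ^ 2 := by
    rw [e1, e2, norm_mul, hcn, mul_one]
    by_cases h22 : p = 2
    · subst h22
      have h3 : ‖(((c : ℤ) ^ 2 - s : ℤ) : ℤ_[2])‖ ≤ (2 : ℝ) ^ (-((3 : ℕ) : ℤ)) := by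
        have := (PadicInt.norm_int_le_pow_iff_dvd (p := 2) (k := (c : ℤ) ^ 2 - s) (n := 3)).2 (by
          have h4 : ((8 : ℕ) : ℤ) ∣ M := Int.natCast_dvd_natCast.2 h8
          have h5 := h4.trans h2
          norm_num at h5 ⊢
          exact h5)
        exact_mod_cast this
      have h4 : ‖(2 : ℤ_[2])‖ = 2⁻¹ := by
        have := PadicInt.norm_p (p := 2)
        exact_mod_cast this
      rw [h4]
      refine lt_of_le_of_lt h3 ?_
      norm_num
    · have h3 : ‖(((c : ℤ) ^ 2 - s : ℤ) : ℤ_[p])‖ < 1 := by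
        rw [PadicInt.norm_int_lt_one_iff_dvd]
        exact (Int.natCast_dvd_natCast.2 hpM).trans h2
      have h4 : ‖(2 : ℤ_[p])‖ = 1 := by
        have h5 : ‖((2 : ℤ) : ℤ_[p])‖ = 1 := by
          rcases lt_or_eq_of_le (PadicInt.norm_le_one ((2 : ℤ) : ℤ_[p])) with h4 | h4
          · rw [PadicInt.norm_int_lt_one_iff_dvd] at h4
            have h6 : p ∣ 2 := by exact_mod_cast h4
            exact absurd ((Nat.prime_dvd_prime_iff_eq hp.out Nat.prime_two).1 h6) h22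
          · exact h4
        simpa using h5
      rw [h4, one_pow]
      exact h3
  obtain ⟨z, hz, -⟩ := hensels_lemma key
  refine ⟨(z : ℚ_[p]), ?_⟩
  have hz' : z ^ 2 - (s : ℤ_[p]) = 0 := by
    simpa [F] using hz
  have h6 : (s : ℤ_[p]) = z * z := by
    rw [sub_eq_zero] at hz'
    rw [← hz', pow_two]
  have h7 := congrArg (fun t : ℤ_[p] => (t : ℚ_[p])) h6
  push_cast at h7
  exact h7

end Pool.Agent.J4.H59.WG
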